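import Mathlib
import Pool.Agent.U792.SW.GenH

/-!
The Nagell-Ljunggren equation `(x ^ d - 1) / (x - 1) = y ^ n`, `|x| > 1`, for every `d = p k` with a
prime `p ≥ 5` and all `n ≥ 2` prime to `2 p`. (By known results every further solution has `n` odd and
`d` prime to `6`, so only the solutions where every prime factor of `d` divides `n` are left out.)
Everything is proved without a condition on the class number, and in a stronger form if the minus part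
of the class group of `ℚ(ζ_p)` has no elements of order dividing `n`.

Let `X = x ^ k`, `E = max 1 (⌊p / 3⌋ - ⌊p / 4⌋)`, which is `1` for `p ≤ 17` and about `p / 12` in
general, or `E = 1` under the condition on the class group. Call `Q` free if `n`-th roots are unique
modulo `Q` in `ℤ[ζ_p]` by the orders of the residue fields (`Free` below).

(1) Free divisors `Q` of `X`, `X + 1` and (if `p` does not divide `Q`) `X - 1` satisfy
`Q ^ n ≤ 2 ^ n (|X| + 1) ^ E`. (2) If `gcd (n, p - 1) = 1` and `p ^ (m + 1) ∣ X - 1` then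
`p ^ (m n) ≤ 2 ^ n (|X| + 1) ^ E`. (3) If `n` is prime and `n ^ (m + 1)` divides `X`, `X + 1` or
`X - 1` then `n ^ (max (m, 1) n) ≤ 2 ^ n (|X| + 1) ^ E`. (4) If `n > 3 E` and `|X| ≥ 5` then neither
`x` nor `X + 1` is free, and `X - 1` is free only if `p` divides it. (5) `n = q` prime: `q ∣ x` implies
`q ^ 2 ∣ X`; if `q` does not divide `(p - 1) / 2`, or if `p ≤ 17`, or under the condition on the class
group, `q ∣ X ± 1` implies `q ^ 2 ∣ X ± 1`. (6) If `q < p` then, for `p ≤ 17` or under the condition on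
the class group, `q ^ 2` divides `X`, `X + 1` or `X - 1`, and `q ^ q ≤ 2 ^ q (|X| + 1)`.

Proof. `(X - ζ) = (ζ - 1) ^ e 𝔞 ^ n`, and the prime factors of `𝔞` have degree one. For
`S_a = {u mod p : (u mod p) + (a u mod p) < p}` the ideal `∏ σ_u⁻¹ 𝔞`, `u ∈ S_a`, is principal, with
a generator `g_a` such that `g_a ḡ_a = N 𝔞` (Jacobi sums `J (χ, χ ^ a)`). Compare `a = 1` and `a = 3`
(`a = 2` for `p = 5`), where `S_1` and `S_3` differ by few classes.
-/

set_option autoImplicit false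

namespace Pool.Agent.Results.MP_023499_nt.NeighboursOfTheBase

open NumberField Pool.Agent.U792.KU Pool.Agent.U792.SW

/-- There is no ideal class `C ≠ 1` of `ℚ(ζ_p)` with `C ^ n = 1` and `C * conj C = 1`; here `c` is
complex conjugation, the endomorphism which inverts the `p`-th roots of unity. -/
def NoMinusClass (p n : ℕ) : Prop :=
  ∀ c : 𝓞 (CyclotomicField p ℚ) →+* 𝓞 (CyclotomicField p ℚ),
    (∀ x : 𝓞 (CyclotomicField p ℚ), x ^ p = 1 → c x * x = 1) →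
    ∀ I : Ideal (𝓞 (CyclotomicField p ℚ)), I ≠ ⊥ → (I ^ n).IsPrincipal →
      (I * I.map c).IsPrincipal → I.IsPrincipal

/-- for every prime factor `l` of `Q` there is `f ≥ 1` with `gcd (n, l (l ^ f - 1)) = 1` such that
`l = p` or `l ^ f ≡ 1` modulo `p` -/
def Free (p n Q : ℕ) : Prop :=
  Q ≠ 0 ∧ ∀ l : ℕ, l.Prime → l ∣ Q →
    ∃ f : ℕ, 0 < f ∧ (l = p ∨ l ^ f ≡ 1 [MOD p]) ∧ Nat.Coprime n (l * (l ^ f - 1))

theorem result (p n k : ℕ) (hp : p.Prime) (hp5 : 5 ≤ p) (hk : k ≠ 0) (hn : 2 ≤ n)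
    (hnp : Nat.Coprime n (2 * p)) (x y : ℤ) (hx : 1 < |x|)
    (h : x ^ (p * k) - 1 = (x - 1) * y ^ n) :
    (∀ E : ℕ, (E = max 1 (p / 3 - p / 4) ∨ (E = 1 ∧ NoMinusClass p n)) →
      (∀ Q : ℕ, Free p n Q →
        ((Q : ℤ) ∣ x ^ k ∨ (Q : ℤ) ∣ x ^ k + 1 ∨ ((Q : ℤ) ∣ x ^ k - 1 ∧ ¬ p ∣ Q)) →
        (Q : ℤ) ^ n ≤ 2 ^ n * (|x| ^ k + 1) ^ E) ∧
      (∀ m : ℕ, (p : ℤ) ^ (m + 1) ∣ x ^ k - 1 → Nat.Coprime n (p - 1) →
        (p : ℤ) ^ (m * n) ≤ 2 ^ n * (|x| ^ k + 1) ^ E) ∧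
      (n.Prime → ∀ m : ℕ, ((n : ℤ) ^ (m + 1) ∣ x ^ k ∨ (n : ℤ) ^ (m + 1) ∣ x ^ k + 1 ∨
          (n : ℤ) ^ (m + 1) ∣ x ^ k - 1) →
        (n : ℤ) ^ (max m 1 * n) ≤ 2 ^ n * (|x| ^ k + 1) ^ E) ∧
      (3 * E < n → 5 ≤ |x| ^ k → ¬ Free p n x.natAbs ∧ ¬ Free p n (x ^ k + 1).natAbs ∧
        (Free p n (x ^ k - 1).natAbs → (p : ℤ) ∣ x ^ k - 1))) ∧
    (n.Prime →
      ((n : ℤ) ∣ x → (n : ℤ) ^ 2 ∣ x ^ k) ∧
      ((n : ℤ) ∣ x ^ k + 1 → (¬ n ∣ (p - 1) / 2 ∨ p ≤ 17 ∨ NoMinusClass p n) →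
        (n : ℤ) ^ 2 ∣ x ^ k + 1) ∧
      ((n : ℤ) ∣ x ^ k - 1 → (¬ n ∣ (p - 1) / 2 ∨ p ≤ 17 ∨ NoMinusClass p n) →
        (n : ℤ) ^ 2 ∣ x ^ k - 1) ∧
      (n < p → (p ≤ 17 ∨ NoMinusClass p n) →
        ((n : ℤ) ^ 2 ∣ x ^ k ∨ (n : ℤ) ^ 2 ∣ x ^ k + 1 ∨ (n : ℤ) ^ 2 ∣ x ^ k - 1) ∧
        (n : ℤ) ^ n ≤ 2 ^ n * (|x| ^ k + 1))) := by
  have hx0 : x ≠ 0 := by
    rintro rfl
    norm_num at hx
  have hx1 : x - 1 ≠ 0 := by
    intro h0
    have h1 : x = 1 := by omega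
    rw [h1] at hx
    norm_num at hx
  have hxk : 2 ≤ |x| ^ k := by
    have h1 : |x| ≤ |x| ^ k := le_self_pow₀ (by omega) hk
    omega
  have hX0 : x ^ k ≠ 0 := pow_ne_zero _ hx0
  have habs : |x ^ k| = |x| ^ k := abs_pow x k
  have hX1 : x ^ k ≠ 1 := by
    intro h0
    rw [← habs, h0] at hxk
    norm_num at hxk
  have hX2 : x ^ k ≠ -1 := by
    intro h0
    rw [← habs, h0] at hxk
    norm_num at hxk
  have hodd : Odd p := hp.odd_of_ne_two (by omega)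
  have hcop : IsCoprime (x ^ k) (-1 : ℤ) := isCoprime_one_right.neg_right
  obtain ⟨g, hg⟩ : x - 1 ∣ x ^ k - 1 := by
    simpa using sub_dvd_pow_sub_pow x 1 k
  have hmain : ((x ^ k) ^ p + (-1 : ℤ) ^ p) * g = (x ^ k + -1) * (1 * y ^ n) := by
    rw [hodd.neg_pow, one_pow, ← pow_mul, mul_comm k p, ← sub_eq_add_neg, h, ← sub_eq_add_neg, hg]
    ring
  have hs1 : |x ^ k| + |(-1 : ℤ)| = |x| ^ k + 1 := by
    rw [habs, abs_neg, abs_one]
  have h1c : ∀ l : ℕ, l.Prime → (l : ℤ) ∣ (1 : ℤ) → ¬ l ≡ 1 [MOD p] := by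
    intro l hl h1
    have h2 := Int.natCast_dvd.1 h1
    exact absurd (Nat.dvd_one.1 (by simpa using h2)) hl.one_lt.ne'
  obtain ⟨r1, r2⟩ := collected p n hp hp5 hn hnp (x ^ k) (-1) y 1 g hX0 (by norm_num) hX2
    (by rwa [neg_neg]) hcop h1c (by rw [← sub_eq_add_neg, hg]; exact dvd_mul_left _ _) hmain
  rw [hs1] at r1 r2
  have e1 : x ^ k - -1 = x ^ k + 1 := by ring
  have e2 : x ^ k + -1 = x ^ k - 1 := by ring
  rw [e1, e2] at r1 r2
  refine ⟨fun E hE => ?_, fun hnP => ?_⟩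
  · obtain ⟨a1, a2, a3, a4, a5⟩ := r1 E hE
    refine ⟨?_, a2, ?_, ?_⟩
    · intro Q hQ hD
      refine a1 Q hQ.1 hQ.2 ?_
      rcases hD with hD | hD | hD
      · exact Or.inl hD
      · exact Or.inr (Or.inr (Or.inl hD))
      · exact Or.inr (Or.inr (Or.inr hD))
    · intro hnP m hD
      refine a3 hnP m ?_
      rcases hD with hD | hD | hD
      · exact Or.inl hD
      · exact Or.inr (Or.inr (Or.inl hD))
      · exact Or.inr (Or.inr (Or.inr hD))
    · intro hn3 hk5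
      have hle1 : |x| ^ k - 1 ≤ |x ^ k + 1| := by
        have := abs_sub_abs_le_abs_sub (x ^ k) (-1)
        rw [abs_neg, abs_one, habs, e1] at this
        exact this
      have hle2 : |x| ^ k - 1 ≤ |x ^ k - 1| := by
        have := abs_sub_abs_le_abs_sub (x ^ k) 1
        rw [abs_one, habs] at this
        exact this
      refine ⟨fun hf => ?_, fun hf => ?_, fun hf => ?_⟩
      · have e3 : (((x ^ k).natAbs : ℕ) : ℤ) = |x ^ k| := Int.natCast_natAbs _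
        have h3 := a5 (x ^ k).natAbs (Int.natAbs_ne_zero.2 hX0) (fun l hl hlx => by
          refine hf.2 l hl ?_
          rw [Int.natAbs_pow] at hlx
          exact hl.dvd_of_dvd_pow hlx) hn3 (by
            have : (4 : ℤ) ≤ (((x ^ k).natAbs : ℕ) : ℤ) := by rw [e3, habs]; omega
            exact_mod_cast this) (by rw [e3, habs]; omega)
        exact h3.1 e3
      · have e3 : (((x ^ k + 1).natAbs : ℕ) : ℤ) = |x ^ k + 1| := Int.natCast_natAbs _
        have h3 := a5 (x ^ k + 1).natAbs hf.1 hf.2 hn3 (by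
            have : (4 : ℤ) ≤ (((x ^ k + 1).natAbs : ℕ) : ℤ) := by rw [e3]; omega
            exact_mod_cast this) (by rw [e3]; omega)
        exact h3.2.2.1 e3
      · have e3 : (((x ^ k - 1).natAbs : ℕ) : ℤ) = |x ^ k - 1| := Int.natCast_natAbs _
        have h3 := a5 (x ^ k - 1).natAbs hf.1 hf.2 hn3 (by
            have : (4 : ℤ) ≤ (((x ^ k - 1).natAbs : ℕ) : ℤ) := by rw [e3]; omega
            exact_mod_cast this) (by rw [e3]; omega)
        exact Int.natCast_dvd.2 (h3.2.2.2 e3)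
  · obtain ⟨b1, b2, b3, b4, b5⟩ := r2 hnP
    refine ⟨fun h1 => b1 (h1.trans (dvd_pow_self x hk)), b3, b4, fun h1 h2 => ?_⟩
    obtain ⟨h3, h4⟩ := b5 h1 h2
    refine ⟨?_, h4⟩
    rcases h3 with h3 | h3 | h3 | h3
    · exact Or.inl h3
    · exfalso
      have h5 : ((n ^ 2 : ℕ) : ℤ) ∣ -1 := by
        push_cast
        exact h3
      have h6 := Nat.dvd_one.1 (by simpa using Int.natCast_dvd.1 h5)
      have h7 : 2 ^ 2 ≤ n ^ 2 := Nat.pow_le_pow_left hn 2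
      omega
    · exact Or.inr (Or.inl h3)
    · exact Or.inr (Or.inr h3)

end Pool.Agent.Results.MP_023499_nt.NeighboursOfTheBase
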